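import Pool.Agent.H34.AM.Mult
import Pool.Agent.H35.AN.Count

/-!
# Project AN2 (MP_a3214d), block C: few candidates for a given field
-/

set_option autoImplicit false

open Polynomial IsDedekindDomain NumberField

namespace Pool.Agent.H9.AM

open Pool.Agent.H35.AN

theorem c34_absNorm {k K : Type} [Field k] [NumberField k] [Field K] [NumberField K] [Algebra k K]
    (a : 𝓞 K) (b : 𝓞 k) (h : Algebra.norm k (a : K) = (b : k)) :
    Ideal.absNorm (Ideal.span {a}) = Ideal.absNorm (Ideal.span {b}) := by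
  rw [Ideal.absNorm_span_singleton, Ideal.absNorm_span_singleton]
  congr 1
  have h1 : ((Algebra.norm ℤ a : ℤ) : ℚ) = ((Algebra.norm ℤ b : ℤ) : ℚ) := by
    rw [Algebra.coe_norm_int, Algebra.coe_norm_int, ← h, Algebra.norm_norm]
  exact_mod_cast h1

theorem c34_absNorm_nat (K : Type) [Field K] [NumberField K] (N : ℕ) :
    Ideal.absNorm (Ideal.span {(N : 𝓞 K)}) = N ^ Module.finrank ℚ K := by
  rw [Ideal.absNorm_span_singleton]
  have h1 : (Algebra.norm ℤ (N : 𝓞 K)) = (N : ℤ) ^ Module.finrank ℚ K := by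
    have h2 : (N : 𝓞 K) = algebraMap ℤ (𝓞 K) (N : ℤ) := by simp
    rw [h2, Algebra.norm_algebraMap, RingOfIntegers.rank]
  rw [h1, Int.natAbs_pow, Int.natAbs_natCast]

theorem c34_dvd {K : Type} [Field K] [NumberField K] (a : 𝓞 K) :
    a ∣ ((Ideal.absNorm (Ideal.span {a}) : ℕ) : 𝓞 K) := by
  rw [← Ideal.mem_span_singleton]
  exact Ideal.absNorm_mem _

theorem cand_count (k : Type) [Field k] [NumberField k] (n M : ℕ) (hM : 0 < M) (η c : 𝓞 k)
    (hη : FixedAt M η) (hc : c ≠ 0) (e wt : ℕ) (lam mu : ℝ) (hlam : 1 ≤ lam) (hmu : 1 ≤ mu) (ε : ℝ)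
    (hε : 0 < ε) : ∃ C : ℝ, 1 ≤ C ∧ ∀ (K : Type) [Field K] [NumberField K] [Algebra k K],
      Module.finrank k K = n → ∀ H : ℕ, 1 ≤ H →
      ∃ S : Finset (𝓞 k × 𝓞 K),
        (S.card : ℝ) ≤ C * (|(NumberField.discr K : ℝ)| * H) ^ ε ∧
        ∀ z ∈ Cand M η c e lam mu (H : ℝ) ((H : ℝ) ^ wt) K, z ∈ S := by
  classical
  set m := Module.finrank ℚ k with hm
  have hm1 : 1 ≤ m := Module.finrank_pos
  obtain ⟨Cg, hg⟩ := gens_count k lam hlam
  obtain ⟨C2, hC2, hom⟩ := two_pow_omega m ε hε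
  set L : ℕ := wt * (m * e) * (m * n) with hL
  set ε1 : ℝ := ε / (L + 1) with hε1
  have hL1 : (0 : ℝ) < (L : ℝ) + 1 := by positivity
  have hε10 : 0 < ε1 := by positivity
  obtain ⟨C1, hC1, hts⟩ := twoscale_count (m * n) mu hmu ε1 hε10
  set A0 : ℝ := (Ideal.absNorm (Ideal.span {c}) : ℝ) * lam ^ (m * e) with hA0
  have hA0' : 0 ≤ A0 := by positivity
  refine ⟨C2 * (Cg + 1) * C1 * (A0 ^ (m * n) + 1) ^ ε1, ?_, fun K _ _ _ hK H hH => ?_⟩
  · have h1 : (1 : ℝ) ≤ (Cg : ℝ) + 1 := by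
      have := (Nat.cast_nonneg Cg : (0 : ℝ) ≤ Cg)
      linarith
    have h2 : (1 : ℝ) ≤ (A0 ^ (m * n) + 1) ^ ε1 := by
      refine Real.one_le_rpow ?_ hε10.le
      have : 0 ≤ A0 ^ (m * n) := by positivity
      linarith
    exact one_le_mul_of_one_le_of_one_le (one_le_mul_of_one_le_of_one_le
      (one_le_mul_of_one_le_of_one_le hC2 h1) hC1) h2
  have hH0 : (0 : ℝ) < H := by exact_mod_cast hH
  have hH1 : (1 : ℝ) ≤ H := by exact_mod_cast hH
  have hdim : Module.finrank ℚ K = m * n := by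
    rw [← Module.finrank_mul_finrank ℚ k K, hK]
  have hT : (0 : ℝ) < (H : ℝ) ^ wt := by positivity
  obtain ⟨A, hA1, hA2⟩ := an35_elts k M hM η hη (fun T hT I =>
    ⟨(hg T hT I).1, (hg T hT I).2.trans (Nat.le_succ Cg)⟩) ((H : ℝ) ^ wt) hT
    (NumberField.discr K) (NumberField.discr_ne_zero K)
  -- the norm of `c y^e`
  let Ny : 𝓞 k → ℕ := fun y => Ideal.absNorm (Ideal.span {c * y ^ e})
  have hNy0 : ∀ y : 𝓞 k, y ≠ 0 → Ny y ≠ 0 := by
    intro y hy h
    have h1 := Ideal.absNorm_eq_zero_iff.mp h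
    rw [Ideal.span_singleton_eq_bot] at h1
    exact mul_ne_zero hc (pow_ne_zero e hy) h1
  have hNyle : ∀ y : 𝓞 k, Balanced lam ((H : ℝ) ^ wt) y →
      (Ny y : ℝ) ≤ A0 * (H : ℝ) ^ (wt * (m * e)) := by
    intro y hy
    have h1 : (Ny y : ℝ) = (Ideal.absNorm (Ideal.span {c}) : ℝ) *
        (Ideal.absNorm (Ideal.span {y}) : ℝ) ^ e := by
      have : Ny y = Ideal.absNorm (Ideal.span {c}) * Ideal.absNorm (Ideal.span {y}) ^ e := by
        show Ideal.absNorm (Ideal.span {c * y ^ e}) = _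
        rw [← Ideal.span_singleton_mul_span_singleton, map_mul, ← Ideal.span_singleton_pow, map_pow]
      rw [this]
      push_cast
      rfl
    rw [h1]
    have h2 := an29_norm_le hy
    calc (Ideal.absNorm (Ideal.span {c}) : ℝ) * (Ideal.absNorm (Ideal.span {y}) : ℝ) ^ e
        ≤ (Ideal.absNorm (Ideal.span {c}) : ℝ) * ((lam * (H : ℝ) ^ wt) ^ m) ^ e := by
          gcongr
      _ = A0 * (H : ℝ) ^ (wt * (m * e)) := by
          rw [hA0, ← pow_mul, mul_pow, ← pow_mul]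
          ring
  -- the candidates over one `y`
  have hfib : ∀ y : 𝓞 k, y ≠ 0 → ((Ny y : ℕ) : 𝓞 K) ≠ 0 := by
    intro y hy
    exact_mod_cast hNy0 y hy
  let G : 𝓞 k → Finset (𝓞 K) := fun y =>
    if h : y ≠ 0 then (hts K hdim.le ((Ny y : ℕ) : 𝓞 K) (hfib y h) (H : ℝ) hH0).1.toFinset else ∅
  let A' : Finset (𝓞 k) := A.filter (fun y => Balanced lam ((H : ℝ) ^ wt) y)
  set W : ℝ := C1 * ((A0 * (H : ℝ) ^ (wt * (m * e))) ^ (m * n)) ^ ε1 with hW
  have hW0 : 0 ≤ W := by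
    have : 0 ≤ C1 := by linarith
    positivity
  have hG : ∀ y ∈ A', ((G y).card : ℝ) ≤ W := by
    intro y hy
    have hy' := (Finset.mem_filter.mp hy).2
    by_cases h : y ≠ 0
    · have h1 : G y = (hts K hdim.le ((Ny y : ℕ) : 𝓞 K) (hfib y h) (H : ℝ) hH0).1.toFinset :=
        dif_pos h
      rw [h1, ← Set.ncard_eq_toFinset_card _
        (hts K hdim.le ((Ny y : ℕ) : 𝓞 K) (hfib y h) (H : ℝ) hH0).1]
      refine (hts K hdim.le ((Ny y : ℕ) : 𝓞 K) (hfib y h) (H : ℝ) hH0).2.trans ?_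
      rw [c34_absNorm_nat, hdim]
      have hC1' : 0 ≤ C1 := by linarith
      refine mul_le_mul_of_nonneg_left ?_ hC1'
      refine Real.rpow_le_rpow (by positivity) ?_ hε10.le
      push_cast
      exact pow_le_pow_left₀ (by positivity) (hNyle y hy') _
    · have h1 : G y = ∅ := dif_neg h
      rw [h1]
      simpa using hW0
  let S : Finset (𝓞 k × 𝓞 K) := A'.biUnion (fun y => (G y).image (fun a => (y, a)))
  refine ⟨S, ?_, ?_⟩
  · have h1 : (S.card : ℝ) ≤ ∑ y ∈ A', ((G y).card : ℝ) := by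
      have h2 : S.card ≤ ∑ y ∈ A', (G y).card :=
        Finset.card_biUnion_le.trans (Finset.sum_le_sum fun y _ => Finset.card_image_le)
      exact_mod_cast h2
    have h3 : (S.card : ℝ) ≤ (A'.card : ℝ) * W := by
      refine h1.trans ?_
      rw [← nsmul_eq_mul]
      exact Finset.sum_le_card_nsmul _ _ _ hG
    have hA'card : (A'.card : ℝ) ≤ C2 * |(NumberField.discr K : ℝ)| ^ ε * (Cg + 1) := by
      have h4 : A'.card ≤ 2 ^ (m * (NumberField.discr K).natAbs.primeFactors.card) * (Cg + 1) :=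
        (Finset.card_filter_le _ _).trans hA1
      have h5 : (A'.card : ℝ) ≤
          2 ^ (m * (NumberField.discr K).natAbs.primeFactors.card) * ((Cg : ℝ) + 1) := by
        exact_mod_cast h4
      refine h5.trans (mul_le_mul_of_nonneg_right ?_ (by positivity))
      have h6 := hom (NumberField.discr K).natAbs
        (Nat.one_le_iff_ne_zero.mpr (Int.natAbs_ne_zero.mpr (NumberField.discr_ne_zero K)))
      have h7 : (((NumberField.discr K).natAbs : ℕ) : ℝ) = |(NumberField.discr K : ℝ)| := by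
        rw [Nat.cast_natAbs]
        push_cast
        rfl
      rw [h7] at h6
      exact h6
    have hWle : W ≤ C1 * (A0 ^ (m * n) + 1) ^ ε1 * (H : ℝ) ^ ε := by
      have h8 : (A0 * (H : ℝ) ^ (wt * (m * e))) ^ (m * n) = A0 ^ (m * n) * (H : ℝ) ^ L := by
        rw [mul_pow, ← pow_mul, hL]
      rw [hW, h8, Real.mul_rpow (by positivity) (by positivity), ← mul_assoc]
      have h9 : ((H : ℝ) ^ L) ^ ε1 ≤ (H : ℝ) ^ ε := by
        rw [← Real.rpow_natCast, ← Real.rpow_mul (by positivity)]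
        refine Real.rpow_le_rpow_of_exponent_le hH1 ?_
        rw [hε1, mul_div_assoc', div_le_iff₀ hL1]
        nlinarith
      have hC1' : 0 ≤ C1 := by linarith
      have h10 : (A0 ^ (m * n)) ^ ε1 ≤ (A0 ^ (m * n) + 1) ^ ε1 :=
        Real.rpow_le_rpow (by positivity) (by linarith) hε10.le
      have h11 : 0 ≤ (A0 ^ (m * n) + 1) ^ ε1 := by positivity
      have h12 : 0 ≤ ((H : ℝ) ^ L) ^ ε1 := by positivity
      calc C1 * (A0 ^ (m * n)) ^ ε1 * ((H : ℝ) ^ L) ^ ε1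
          ≤ C1 * (A0 ^ (m * n) + 1) ^ ε1 * ((H : ℝ) ^ L) ^ ε1 := by gcongr
        _ ≤ C1 * (A0 ^ (m * n) + 1) ^ ε1 * (H : ℝ) ^ ε := by gcongr
    have hC2' : 0 ≤ C2 := by linarith
    calc (S.card : ℝ) ≤ (A'.card : ℝ) * W := h3
      _ ≤ (C2 * |(NumberField.discr K : ℝ)| ^ ε * (Cg + 1)) *
            (C1 * (A0 ^ (m * n) + 1) ^ ε1 * (H : ℝ) ^ ε) := by
          refine mul_le_mul hA'card hWle hW0 (by positivity)
      _ = C2 * (Cg + 1) * C1 * (A0 ^ (m * n) + 1) ^ ε1 *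
            (|(NumberField.discr K : ℝ)| * H) ^ ε := by
          rw [Real.mul_rpow (abs_nonneg _) hH0.le]
          ring
  · rintro ⟨y, a⟩ ⟨h1, h2, h3, h4, h5, h6, h7⟩
    have hyA : y ∈ A := hA2 y h2 h3 h1 h4 h5
    refine Finset.mem_biUnion.mpr ⟨y, Finset.mem_filter.mpr ⟨hyA, h3⟩, ?_⟩
    refine Finset.mem_image.mpr ⟨a, ?_, rfl⟩
    have h8 : G y = (hts K hdim.le ((Ny y : ℕ) : 𝓞 K) (hfib y h2) (H : ℝ) hH0).1.toFinset :=
      dif_pos h2
    rw [h8, Set.Finite.mem_toFinset]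
    refine ⟨?_, h7⟩
    have h9 : Ideal.absNorm (Ideal.span {a}) = Ny y := by
      refine c34_absNorm a (c * y ^ e) ?_
      push_cast
      exact h6
    rw [← h9]
    exact c34_dvd a

end Pool.Agent.H9.AM
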