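import Pool.Agent.H35.AN.Pairs
import Pool.Agent.H9.AM.Defs

/-!
# Project AN2 (MP_a3214d), block C: many members of the family
-/

set_option autoImplicit false

open Polynomial IsDedekindDomain NumberField

namespace Pool.Agent.H9.AM

open Pool.Agent.H35.AN

variable (k : Type) [Field k] [NumberField k]

theorem small_box : ∃ lam0 : ℝ, 1 ≤ lam0 ∧ ∀ Q : ℕ, ∃ S : Finset (𝓞 k),
    S.card = Q ^ Module.finrank ℚ k ∧ ∀ x ∈ S, ∀ φ : k →+* ℂ, ‖φ (x : k)‖ ≤ lam0 * Q := by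
  classical
  set Bd : ℝ := ∑ ψ : k →+* ℂ, ∑ i : Idx k, ‖ψ ((RingOfIntegers.basis k i : 𝓞 k) : k)‖ with hBd
  have hBd0 : 0 ≤ Bd := Finset.sum_nonneg (fun ψ _ => Finset.sum_nonneg (fun i _ => norm_nonneg _))
  have hBφ : ∀ φ : k →+* ℂ, ∑ i : Idx k, ‖φ ((RingOfIntegers.basis k i : 𝓞 k) : k)‖ ≤ Bd :=
    fun φ => an27_sum_le φ (fun ψ => ∑ i : Idx k, ‖ψ ((RingOfIntegers.basis k i : 𝓞 k) : k)‖)
      (fun ψ => Finset.sum_nonneg (fun i _ => norm_nonneg _))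
  refine ⟨Bd + 1, by linarith, fun Q => ?_⟩
  refine ⟨(box k Q).image (fun y => boxElt k 1 0 0 y), ?_, ?_⟩
  · rw [Finset.card_image_of_injective _ (boxElt_inj k one_pos 0 0), card_box]
  · intro x hx φ
    obtain ⟨y, hy, rfl⟩ := Finset.mem_image.mp hx
    have hy' : ∀ i, y i < Q := by
      intro i
      unfold box at hy
      rw [Fintype.mem_piFinset] at hy
      exact Finset.mem_range.mp (hy i)
    have hval : φ ((boxElt k 1 0 0 y : 𝓞 k) : k) =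
        ∑ i : Idx k, (y i : ℂ) * φ ((RingOfIntegers.basis k i : 𝓞 k) : k) := by
      unfold boxElt
      simp only [map_add, map_mul, map_natCast, map_sum, Nat.cast_one, Nat.cast_zero, one_mul,
        zero_add, map_zero, add_zero]
    rw [hval]
    calc ‖∑ i : Idx k, (y i : ℂ) * φ ((RingOfIntegers.basis k i : 𝓞 k) : k)‖
        ≤ ∑ i : Idx k, ‖(y i : ℂ) * φ ((RingOfIntegers.basis k i : 𝓞 k) : k)‖ := norm_sum_le _ _
      _ ≤ ∑ i : Idx k, (Q : ℝ) * ‖φ ((RingOfIntegers.basis k i : 𝓞 k) : k)‖ := by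
          apply Finset.sum_le_sum
          intro i _
          rw [norm_mul, Complex.norm_natCast]
          exact mul_le_mul_of_nonneg_right (by exact_mod_cast (hy' i).le) (norm_nonneg _)
      _ = (Q : ℝ) * ∑ i : Idx k, ‖φ ((RingOfIntegers.basis k i : 𝓞 k) : k)‖ := by
          rw [Finset.mul_sum]
      _ ≤ (Q : ℝ) * Bd := mul_le_mul_of_nonneg_left (hBφ φ) (Nat.cast_nonneg _)
      _ ≤ (Bd + 1) * Q := by nlinarith [(Nat.cast_nonneg Q : (0 : ℝ) ≤ Q)]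

open scoped Classical in
theorem visible_box : ∃ (D0 Y : ℕ), 1 ≤ D0 ∧ ∀ (M : ℕ) (η : 𝓞 k), 0 < M →
    (∀ p : ℕ, p.Prime → p ≤ Y → p ∣ M) → ∃ (lam : ℝ) (T0 : ℕ), 1 ≤ lam ∧ ∀ T : ℕ, T0 ≤ T →
    ∃ S : Finset (𝓞 k), ((T / D0 : ℕ) : ℝ) ^ Module.finrank ℚ k / 2 ≤ (S.card : ℝ) ∧
      ∀ y ∈ S, (M : 𝓞 k) ∣ y - η ∧ y ≠ 0 ∧ Balanced lam (T : ℝ) y ∧ SqfreeOff M y := by
  obtain ⟨D0, hD0, hbox⟩ := exists_box k
  obtain ⟨Y, hY⟩ := sieve_sqfree k D0 hD0 (1 / 2) (by norm_num)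
  refine ⟨D0, Y, hD0, fun M η hM hMY => ?_⟩
  obtain ⟨lam, T1, hlam, hb⟩ := hbox M hM η
  obtain ⟨T0, hT0⟩ := hY M hM hMY η lam hlam T1 hb
  refine ⟨lam, max T0 T1, hlam, fun T hT => ?_⟩
  refine ⟨((box k (T / D0)).filter (fun y => SqfreeOff M (boxElt k M η T y))).image
    (boxElt k M η T), ?_, ?_⟩
  · rw [Finset.card_image_of_injective _ (boxElt_inj k hM η T)]
    have h1 := hT0 T ((le_max_left _ _).trans hT)
    have h2 := Finset.card_filter_add_card_filter_not (s := box k (T / D0))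
      (fun y => SqfreeOff M (boxElt k M η T y))
    rw [card_box] at h2
    have h3 : (((box k (T / D0)).filter (fun y => SqfreeOff M (boxElt k M η T y))).card : ℝ) +
        (((box k (T / D0)).filter (fun y => ¬ SqfreeOff M (boxElt k M η T y))).card : ℝ) =
        ((T / D0 : ℕ) : ℝ) ^ Module.finrank ℚ k := by
      exact_mod_cast h2
    linarith
  · intro z hz
    obtain ⟨y, hy, rfl⟩ := Finset.mem_image.mp hz
    rw [Finset.mem_filter] at hy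
    have h3 := hb T ((le_max_right _ _).trans hT) y hy.1
    exact ⟨an34_dvd M η T y, h3.2, h3.1, hy.2⟩

theorem many_members {r : ℕ} (ws : Fin r → ℕ) (wt : ℕ) (hwt : 0 < wt) : ∃ Y : ℕ,
    ∀ (M : ℕ) (η : 𝓞 k), 0 < M → (∀ p : ℕ, p.Prime → p ≤ Y → p ∣ M) →
    ∃ (lam c : ℝ) (H0 : ℕ), 1 ≤ lam ∧ 0 < c ∧ ∀ H : ℕ, H0 ≤ H →
    ∃ S : Finset ((Fin r → 𝓞 k) × 𝓞 k),
      c * (H : ℝ) ^ (Module.finrank ℚ k * ((∑ i, ws i) + wt)) ≤ (S.card : ℝ) ∧
      ∀ z ∈ S, (∀ i, ∀ φ : k →+* ℂ, ‖φ (z.1 i : k)‖ ≤ lam * (H : ℝ) ^ ws i) ∧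
        (M : 𝓞 k) ∣ z.2 - η ∧ z.2 ≠ 0 ∧ Balanced lam ((H : ℝ) ^ wt) z.2 ∧ SqfreeOff M z.2 := by
  classical
  set m := Module.finrank ℚ k with hm
  obtain ⟨lam0, hlam0, hsmall⟩ := small_box k
  obtain ⟨D0, Y, hD0, hvis⟩ := visible_box k
  refine ⟨Y, fun M η hM hMY => ?_⟩
  obtain ⟨lam1, T0, hlam1, hT⟩ := hvis M η hM hMY
  have hD0' : (0 : ℝ) < D0 := by exact_mod_cast hD0
  refine ⟨max lam0 lam1, (1 / (2 * D0)) ^ m / 2, max T0 (2 * D0), hlam0.trans (le_max_left _ _),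
    by positivity, fun H hH => ?_⟩
  have hH1 : 2 * D0 ≤ H := (le_max_right _ _).trans hH
  have hHpos : 1 ≤ H := by omega
  have hHle : H ≤ H ^ wt := Nat.le_self_pow (by omega) H
  choose Sm hSm1 hSm2 using hsmall
  obtain ⟨V, hV1, hV2⟩ := hT (H ^ wt) (((le_max_left _ _).trans hH).trans hHle)
  refine ⟨(Fintype.piFinset fun i : Fin r => Sm (H ^ ws i)) ×ˢ V, ?_, ?_⟩
  · rw [Finset.card_product, Fintype.card_piFinset]
    simp only [hSm1]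
    have h1 : ((∏ i : Fin r, (H ^ ws i) ^ Module.finrank ℚ k : ℕ) : ℝ) =
        (H : ℝ) ^ (m * ∑ i, ws i) := by
      push_cast
      rw [Finset.prod_pow, Finset.prod_pow_eq_pow_sum, ← pow_mul, mul_comm]
    have h2 : (H : ℝ) ^ wt / (2 * D0) ≤ (((H ^ wt) / D0 : ℕ) : ℝ) := by
      have h3 : H ^ wt < D0 * (H ^ wt / D0) + D0 := by
        have h4 := Nat.div_add_mod (H ^ wt) D0
        have h5 := Nat.mod_lt (H ^ wt) hD0
        omega
      have h6 : ((H : ℝ)) ^ wt < D0 * (((H ^ wt) / D0 : ℕ) : ℝ) + D0 := by exact_mod_cast h3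
      have h7 : (2 * D0 : ℝ) ≤ (H : ℝ) ^ wt := by exact_mod_cast hH1.trans hHle
      rw [div_le_iff₀ (by positivity)]
      nlinarith
    have h8 : (1 / (2 * (D0 : ℝ))) ^ m / 2 * (H : ℝ) ^ (m * wt) ≤ (V.card : ℝ) := by
      refine le_trans ?_ hV1
      have h9 : ((H : ℝ) ^ wt / (2 * D0)) ^ m ≤ (((H ^ wt) / D0 : ℕ) : ℝ) ^ m :=
        pow_le_pow_left₀ (by positivity) h2 m
      calc (1 / (2 * (D0 : ℝ))) ^ m / 2 * (H : ℝ) ^ (m * wt)
          = ((H : ℝ) ^ wt / (2 * D0)) ^ m / 2 := by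
            rw [div_pow, div_pow, ← pow_mul, mul_comm wt m, one_pow]
            ring
        _ ≤ (((H ^ wt) / D0 : ℕ) : ℝ) ^ m / 2 := by linarith
    rw [Nat.cast_mul, h1]
    calc (1 / (2 * (D0 : ℝ))) ^ m / 2 * (H : ℝ) ^ (m * ((∑ i, ws i) + wt))
        = (H : ℝ) ^ (m * ∑ i, ws i) * ((1 / (2 * (D0 : ℝ))) ^ m / 2 * (H : ℝ) ^ (m * wt)) := by
          rw [Nat.mul_add, pow_add]
          ring
      _ ≤ (H : ℝ) ^ (m * ∑ i, ws i) * (V.card : ℝ) :=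
          mul_le_mul_of_nonneg_left h8 (by positivity)
  · rintro ⟨δ, y⟩ hz
    rw [Finset.mem_product, Fintype.mem_piFinset] at hz
    obtain ⟨hδ, hy⟩ := hz
    obtain ⟨h1, h2, h3, h4⟩ := hV2 y hy
    refine ⟨fun i φ => ?_, h1, h2, ?_, h4⟩
    · have h5 := hSm2 (H ^ ws i) (δ i) (hδ i) φ
      refine h5.trans ?_
      push_cast
      exact mul_le_mul_of_nonneg_right (le_max_left _ _) (by positivity)
    · have h6 := an34_balanced_mono (T := H ^ wt) (le_max_right lam0 lam1) h3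
      push_cast at h6
      exact h6

end Pool.Agent.H9.AM
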