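import Pool.Agent.H35.AN.Count
import Pool.Agent.H9.AM.Defs
import Pool.Agent.H34.AM.CandCount
import Pool.Agent.H34.AM.Members

/-!
# Project AN2 (MP_a3214d), block C: the count from the abstract key statement
-/

set_option autoImplicit false

open Polynomial IsDedekindDomain NumberField

namespace Pool.Agent.H9.AM

open Pool.Agent.H35.AN

/-- transport of a candidate along an isomorphism -/
theorem cw_transport {k : Type} [Field k] [NumberField k] {M : ℕ} {η c : 𝓞 k} {e : ℕ}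
    {lam mu H T : ℝ} {K K' : Type} [Field K] [NumberField K] [Algebra k K] [Field K']
    [NumberField K'] [Algebra k K'] (f : K ≃ₐ[k] K') (y : 𝓞 k) (α : 𝓞 K)
    (h : (y, α) ∈ Cand M η c e lam mu H T K) :
    (y, RingOfIntegers.mapRingEquiv (f : K ≃+* K') α) ∈ Cand M η c e lam mu H T K' := by
  obtain ⟨h1, h2, h3, h4, h5, h6, h7⟩ := h
  have hd : NumberField.discr K = NumberField.discr K' :=
    NumberField.discr_eq_discr_of_ringEquiv K (f : K ≃+* K')
  refine ⟨h1, h2, h3, h4, ?_, ?_, ?_⟩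
  · rw [← hd]
    exact h5
  · rw [← h6]
    exact Algebra.norm_eq_of_algEquiv f (α : K)
  · intro φ
    exact h7 (φ.comp (f : K ≃+* K').toRingHom)

/-- the count at one level -/
theorem cw_level (k : Type) [Field k] [NumberField k] {n M r : ℕ} {η c : 𝓞 k}
    {Q : (Fin r → 𝓞 k) → 𝓞 k → k[X]}
    (hQ : ∀ (y : 𝓞 k) (δ δ' : Fin r → 𝓞 k), Q δ y = Q δ' y → δ = δ') {e : ℕ}
    {lam mu H T B : ℝ} {S : Finset ((Fin r → 𝓞 k) × 𝓞 k)}
    (hS : ∀ z ∈ S, ∃ (K : IntermediateField k (AlgebraicClosure k)) (_ : NumberField K)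
        (α : 𝓞 K), IsAltField k n K ∧ minpoly k (α : K) = Q z.1 z.2 ∧
        (z.2, α) ∈ Cand M η c e lam mu H T K ∧ |(NumberField.discr K : ℝ)| ≤ B) {N : ℕ}
    (hN : ∀ (K : Type) [Field K] [NumberField K] [Algebra k K], Module.finrank k K = n →
      |(NumberField.discr K : ℝ)| ≤ B → ∃ A : Finset (𝓞 k × 𝓞 K), A.card ≤ N ∧
        ∀ z ∈ Cand M η c e lam mu H T K, z ∈ A) :
    S.card ≤ N * malleCount k n (alternatingGroup (Fin n)) B := by
  classical
  choose! K hK α h1 h2 h3 h4 using hS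
  have hk1 : (1 : ℝ) ≤ ((|NumberField.discr k| : ℤ) : ℝ) ^ n := by
    refine one_le_pow₀ ?_
    exact_mod_cast Int.one_le_abs (NumberField.discr_ne_zero k)
  have hX : ∀ z ∈ S, Module.finrank k (K z) = n ∧
      (∃ e : (K z →ₐ[k] AlgebraicClosure k) ≃ Fin n, ∀ π : Equiv.Perm (Fin n),
        π ∈ alternatingGroup (Fin n) ↔ ∃ σ : AlgebraicClosure k ≃ₐ[k] AlgebraicClosure k,
          ∀ φ : K z →ₐ[k] AlgebraicClosure k, e (σ.toAlgHom.comp φ) = π (e φ)) ∧
      ∃ h : NumberField (K z),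
        ((|@NumberField.discr (K z) _ h| : ℤ) : ℝ) ≤
          B * ((|NumberField.discr k| : ℤ) : ℝ) ^ n := by
    intro z hz
    refine ⟨(h1 z hz).1, (h1 z hz).2, hK z hz, ?_⟩
    have h5 := h4 z hz
    have h6 : 0 ≤ B := (abs_nonneg _).trans h5
    push_cast
    refine h5.trans ?_
    have h7 := mul_le_mul_of_nonneg_left hk1 h6
    push_cast at h7
    linarith
  let F : {z // z ∈ S} → an35_X k n (alternatingGroup (Fin n)) B := fun z => ⟨K z.1, hX z.1 z.2⟩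
  have hfin := an35_finite k n (alternatingGroup (Fin n)) B
  have hr : Equivalence (fun L L' : an35_X k n (alternatingGroup (Fin n)) B =>
      Nonempty (L.1 ≃ₐ[k] L'.1)) :=
    ⟨fun L => ⟨AlgEquiv.refl⟩, fun ⟨e⟩ => ⟨e.symm⟩, fun ⟨e⟩ ⟨f⟩ => ⟨e.trans f⟩⟩
  have key := an35_fibres (fun L L' : an35_X k n (alternatingGroup (Fin n)) B =>
      Nonempty (L.1 ≃ₐ[k] L'.1)) hr S.attach F N ?_
  · rw [Finset.card_attach] at key
    exact key
  · intro z₀ _ S' _ hS'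
    have hz₀ := z₀.2
    have hK₀ := hK z₀.1 hz₀
    obtain ⟨A, hA, hA2⟩ := hN (K z₀.1) (h1 z₀.1 hz₀).1 (h4 z₀.1 hz₀)
    have hf : ∀ z : {z // z ∈ S}, ∃ w : 𝓞 k × 𝓞 (K z₀.1), z ∈ S' →
        (w.1 = z.1.2 ∧ minpoly k (w.2 : K z₀.1) = Q z.1.1 z.1.2 ∧ w ∈ A) := by
      intro z
      by_cases hz : z ∈ S'
      · obtain ⟨f⟩ := hS' z hz
        have hKz := hK z.1 z.2
        have h5 := cw_transport f z.1.2 (α z.1) (h3 z.1 z.2)
        refine ⟨(z.1.2, RingOfIntegers.mapRingEquiv ((f : (F z).1 ≃ₐ[k] (F z₀).1) :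
          (F z).1 ≃+* (F z₀).1) (α z.1)), fun _ => ⟨rfl, ?_, hA2 _ h5⟩⟩
        have h6 := minpoly.algEquiv_eq f ((α z.1 : 𝓞 (K z.1)) : K z.1)
        exact h6.trans (h2 z.1 z.2)
      · exact ⟨0, fun h => absurd h hz⟩
    choose g hg using hf
    refine (Finset.card_le_card_of_injOn g (fun z hz => (hg z hz).2.2) ?_).trans hA
    intro z hz z' hz' hzz'
    have h5 := hg z hz
    have h6 := hg z' hz'
    have h7 : z.1.2 = z'.1.2 := by rw [← h5.1, ← h6.1, hzz']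
    have h8 : Q z.1.1 z.1.2 = Q z'.1.1 z.1.2 := by
      rw [← h5.2.1, hzz', h6.2.1, h7]
    have h9 : z.1.1 = z'.1.1 := hQ _ _ _ h8
    exact Subtype.ext (Prod.ext h9 h7)

theorem count_of_keyW (k : Type) [Field k] [NumberField k] {n r wt e D : ℕ} {ws : Fin r → ℕ}
    (hn : 2 ≤ n) (hwt : 0 < wt) (hD : 0 < D) (hk : KeyW k n r ws wt e D) (ε : ℝ) (hε : 0 < ε) :
    ∃ c : ℝ, 0 < c ∧ ∀ᶠ B : ℝ in Filter.atTop,
      c * B ^ ((((∑ i, ws i) + wt : ℕ) : ℝ) / D - ε) ≤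
        (malleCount k n (alternatingGroup (Fin n)) B : ℝ) := by
  classical
  obtain ⟨Y, hY⟩ := many_members k ws wt hwt
  obtain ⟨M, η, c, Q, hM, hMY, _, hc, hQ, hη, hkey⟩ := hk Y
  obtain ⟨lam, c0, H0, hlam, hc0, hmem⟩ := hY M η hM hMY
  obtain ⟨C, mu, H1, hC, hmu, hkey2⟩ := hkey lam hlam
  obtain ⟨C', hC', hcand⟩ := cand_count k n M hM η c hη hc e wt lam mu hlam hmu (ε / 2)
    (by positivity)
  set m := Module.finrank ℚ k with hm
  have hm1 : 1 ≤ m := Module.finrank_pos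
  set W : ℕ := (∑ i, ws i) + wt with hW
  have hmD : 0 < m * D := Nat.mul_pos hm1 hD
  have hmD' : (0 : ℝ) < ((m * D : ℕ) : ℝ) := by exact_mod_cast hmD
  have hmD1 : (1 : ℝ) ≤ ((m * D : ℕ) : ℝ) := by exact_mod_cast hmD
  have hm2 : (0 : ℝ) < m := by exact_mod_cast hm1
  have hD' : (0 : ℝ) < D := by exact_mod_cast hD
  set C3 : ℝ := 1 / C + 1 with hC3
  have hC30 : 0 < C3 := by positivity
  refine ⟨c0 * ((1 / 2) ^ (m * W) * (1 / C) ^ ((W : ℝ) / D)) / (C' * C3 ^ (ε / 2)),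
    by positivity, ?_⟩
  have hy : Filter.Tendsto (fun B : ℝ => (B / C) ^ (1 / ((m * D : ℕ) : ℝ))) Filter.atTop
      Filter.atTop :=
    (tendsto_rpow_atTop (by positivity)).comp (Filter.tendsto_id.atTop_div_const hC)
  filter_upwards [Filter.eventually_ge_atTop 1,
    hy.eventually_ge_atTop (H0 + H1 + 2)] with B hB hyB
  have hB0 : 0 < B := by linarith
  set y : ℝ := (B / C) ^ (1 / ((m * D : ℕ) : ℝ)) with hydef
  have hy0 : 0 ≤ y := by positivity
  set H : ℕ := ⌊y⌋₊ with hHdef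
  have hH1 : (H : ℝ) ≤ y := Nat.floor_le hy0
  have hH2 : y < H + 1 := Nat.lt_floor_add_one y
  have hH0' : (0 : ℝ) ≤ (H0 : ℝ) := Nat.cast_nonneg _
  have hH1' : (0 : ℝ) ≤ (H1 : ℝ) := Nat.cast_nonneg _
  have hH3 : H0 ≤ H := by
    have : (H0 : ℝ) < H + 1 := by linarith
    exact_mod_cast (by exact_mod_cast this : H0 < H + 1) |> Nat.lt_succ_iff.mp
  have hH4 : H1 ≤ H := by
    have : (H1 : ℝ) < H + 1 := by linarith
    exact_mod_cast (by exact_mod_cast this : H1 < H + 1) |> Nat.lt_succ_iff.mp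
  have hH5 : 1 ≤ H := by
    have : (1 : ℝ) < H + 1 := by linarith
    have h2 : 1 < H + 1 := by exact_mod_cast this
    omega
  have hH6 : y / 2 ≤ H := by
    have : (1 : ℝ) ≤ H := by exact_mod_cast hH5
    linarith
  have hyD : y ^ (m * D) = B / C := by
    rw [hydef, ← Real.rpow_natCast, ← Real.rpow_mul (by positivity)]
    rw [one_div_mul_cancel hmD'.ne', Real.rpow_one]
  have hHD : C * (H : ℝ) ^ (m * D) ≤ B := by
    have h1 : (H : ℝ) ^ (m * D) ≤ B / C := by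
      rw [← hyD]
      exact pow_le_pow_left₀ (Nat.cast_nonneg _) hH1 _
    rw [le_div_iff₀ hC] at h1
    linarith
  have hHB : (H : ℝ) ≤ C3 * B := by
    have h1 : B / C ≤ C3 * B := by
      rw [hC3, add_mul, one_mul, div_eq_mul_one_div B C, mul_comm B]
      linarith
    have h2 : (H : ℝ) ^ (m * D) ≤ C3 * B := by
      refine le_trans ?_ h1
      rw [← hyD]
      exact pow_le_pow_left₀ (Nat.cast_nonneg _) hH1 _
    refine le_trans ?_ h2
    exact le_self_pow₀ (by exact_mod_cast hH5) hmD.ne'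
  obtain ⟨S, hS1, hS2⟩ := hmem H hH3
  have hS : ∀ z ∈ S, ∃ (K : IntermediateField k (AlgebraicClosure k)) (_ : NumberField K)
        (α : 𝓞 K), IsAltField k n K ∧ minpoly k (α : K) = Q z.1 z.2 ∧
        (z.2, α) ∈ Cand M η c e lam mu (H : ℝ) ((H : ℝ) ^ wt) K ∧
        |(NumberField.discr K : ℝ)| ≤ B := by
    intro z hz
    obtain ⟨a1, a2, a3, a4, a5⟩ := hS2 z hz
    obtain ⟨K, hK, α, b1, b2, b3, b4, b5, b6⟩ := hkey2 H hH4 z.1 z.2 a1 a2 a4 a5
    exact ⟨K, hK, α, b1, b2, ⟨a2, a3, a4, a5, b6, b3, b4⟩, b5.trans hHD⟩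
  have hcount := cw_level k (n := n) (M := M) (r := r) (η := η) (c := c) (Q := Q) hQ (e := e)
    (lam := lam) (mu := mu) (H := (H : ℝ)) (T := (H : ℝ) ^ wt) (B := B) (S := S) hS
    (N := ⌊C' * C3 ^ (ε / 2) * B ^ ε⌋₊) (by
      intro K _ _ _ hKn hKB
      obtain ⟨A, hA1, hA2⟩ := hcand K hKn H hH5
      refine ⟨A, Nat.le_floor (hA1.trans ?_), hA2⟩
      have h1 : (|(NumberField.discr K : ℝ)| * H) ^ (ε / 2) ≤ C3 ^ (ε / 2) * B ^ ε := by
        have h2 : |(NumberField.discr K : ℝ)| * H ≤ C3 * (B * B) := by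
          calc |(NumberField.discr K : ℝ)| * H ≤ B * (C3 * B) :=
                mul_le_mul hKB hHB (Nat.cast_nonneg _) hB0.le
            _ = C3 * (B * B) := by ring
        refine (Real.rpow_le_rpow (by positivity) h2 (by positivity)).trans (le_of_eq ?_)
        rw [Real.mul_rpow hC30.le (by positivity), Real.mul_rpow hB0.le hB0.le,
          ← Real.rpow_add hB0]
        congr 2
        ring
      calc C' * (|(NumberField.discr K : ℝ)| * H) ^ (ε / 2) ≤ C' * (C3 ^ (ε / 2) * B ^ ε) :=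
            mul_le_mul_of_nonneg_left h1 (by linarith)
        _ = C' * C3 ^ (ε / 2) * B ^ ε := by ring)
  have hcount' : (S.card : ℝ) ≤ C' * C3 ^ (ε / 2) * B ^ ε *
      (malleCount k n (alternatingGroup (Fin n)) B : ℝ) := by
    have h1 : (S.card : ℝ) ≤ (⌊C' * C3 ^ (ε / 2) * B ^ ε⌋₊ : ℝ) *
        (malleCount k n (alternatingGroup (Fin n)) B : ℝ) := by exact_mod_cast hcount
    have h0 : 0 ≤ C' * C3 ^ (ε / 2) * B ^ ε := by positivity
    exact h1.trans (mul_le_mul_of_nonneg_right (Nat.floor_le h0) (by positivity))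
  have hym : y ^ (m * W) = (1 / C) ^ ((W : ℝ) / D) * B ^ ((W : ℝ) / D) := by
    rw [← Real.mul_rpow (by positivity) hB0.le, hydef, ← Real.rpow_natCast,
      ← Real.rpow_mul (by positivity)]
    congr 1
    · ring
    · push_cast
      field_simp
  have hlow : c0 * ((1 / 2) ^ (m * W) * (1 / C) ^ ((W : ℝ) / D)) * B ^ ((W : ℝ) / D) ≤
      (S.card : ℝ) := by
    refine le_trans ?_ hS1
    have h1 : (y / 2) ^ (m * W) ≤ (H : ℝ) ^ (m * W) :=
      pow_le_pow_left₀ (by positivity) hH6 _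
    calc c0 * ((1 / 2) ^ (m * W) * (1 / C) ^ ((W : ℝ) / D)) * B ^ ((W : ℝ) / D)
        = c0 * ((1 / 2) ^ (m * W) * y ^ (m * W)) := by rw [hym]; ring
      _ = c0 * (y / 2) ^ (m * W) := by rw [← mul_pow]; ring_nf
      _ ≤ c0 * (H : ℝ) ^ (m * W) := mul_le_mul_of_nonneg_left h1 hc0.le
  rw [Real.rpow_sub hB0]
  have h5 := hlow.trans hcount'
  have h6 : 0 < B ^ ε := by positivity
  have h7 : (0 : ℝ) < C' * C3 ^ (ε / 2) := by positivity
  rw [← div_le_iff₀' (by positivity)] at h5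
  refine le_trans (le_of_eq ?_) h5
  field_simp

end Pool.Agent.H9.AM
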