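import Pool.Agent.H35.AN.Choices

/-!
# Project AN2 (MP_a3214d), block C: the divisor bound for ideals, uniform in the field
-/

set_option autoImplicit false

open Polynomial IsDedekindDomain NumberField

namespace Pool.Agent.H9.AM

open Pool.Agent.H35.AN

theorem c34_vle (ε : ℝ) (hε : 0 < ε) :
    ∃ c0 : ℝ, 1 ≤ c0 ∧ ∀ v : ℕ, (v : ℝ) + 1 ≤ c0 * ((2 : ℝ) ^ v) ^ ε := by
  have hl : 0 < Real.log 2 := Real.log_pos one_lt_two
  set a : ℝ := min 1 (ε * Real.log 2) with ha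
  have ha0 : 0 < a := lt_min one_pos (by positivity)
  refine ⟨1 / a, ?_, fun v => ?_⟩
  · rw [le_div_iff₀ ha0, one_mul]
    exact min_le_left _ _
  · rw [div_mul_eq_mul_div, one_mul, le_div_iff₀ ha0]
    have h1 : ((2 : ℝ) ^ v) ^ ε = Real.exp (v * (ε * Real.log 2)) := by
      rw [← Real.rpow_natCast, ← Real.rpow_mul (by norm_num), Real.rpow_def_of_pos (by norm_num)]
      congr 1
      ring
    rw [h1]
    have h2 := Real.add_one_le_exp ((v : ℝ) * (ε * Real.log 2))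
    have h3 : (v : ℝ) * a ≤ v * (ε * Real.log 2) :=
      mul_le_mul_of_nonneg_left (min_le_right _ _) (Nat.cast_nonneg v)
    have h4 : a ≤ 1 := min_le_left _ _
    nlinarith

theorem c34_vle' (ε : ℝ) (hε : 0 < ε) {N : ℕ} (hN : (2 : ℝ) ^ (1 / ε) ≤ N) (v : ℕ) :
    (v : ℝ) + 1 ≤ ((N : ℝ) ^ v) ^ ε := by
  have h1 : (v : ℝ) + 1 ≤ (2 : ℝ) ^ v := by
    have : v + 1 ≤ 2 ^ v := Nat.lt_two_pow_self
    exact_mod_cast this
  refine h1.trans ?_
  have h2 : ((2 : ℝ) ^ v) = (((2 : ℝ) ^ (1 / ε)) ^ v) ^ ε := by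
    rw [← Real.rpow_natCast ((2 : ℝ) ^ (1 / ε)), ← Real.rpow_mul (by positivity),
      ← Real.rpow_mul (by positivity), ← Real.rpow_natCast]
    congr 1
    field_simp
  rw [h2]
  refine Real.rpow_le_rpow (by positivity) ?_ hε.le
  exact pow_le_pow_left₀ (by positivity) hN v

/-- few primes of small norm -/
theorem c34_small (K : Type) [Field K] [NumberField K] (X : ℕ) (S : Finset (Ideal (𝓞 K)))
    (hS : ∀ P ∈ S, P.IsPrime ∧ P ≠ ⊥ ∧ Ideal.absNorm P < X) :
    S.card ≤ X * Module.finrank ℚ K := by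
  classical
  have h0 : ∀ P ∈ S, ∃ r ∈ Finset.range X, ∃ h : r.Prime, ∃ Q : HeightOneSpectrum (𝓞 K),
      Q.asIdeal = P ∧ (r : 𝓞 K) ∈ Q.asIdeal := by
    intro P hP
    obtain ⟨h1, h2, h3⟩ := hS P hP
    let Q : HeightOneSpectrum (𝓞 K) := ⟨P, h1, h2⟩
    obtain ⟨r, hr, hrQ⟩ := exists_rat_prime Q
    have h4 : ((Ideal.absNorm P : ℕ) : 𝓞 K) ∈ P := Ideal.absNorm_mem P
    have h5 : r ∣ Ideal.absNorm P := by
      by_contra hcon
      have h6 : Nat.Coprime r (Ideal.absNorm P) := (Nat.Prime.coprime_iff_not_dvd hr).mpr hcon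
      have h7 : IsCoprime (r : ℤ) (Ideal.absNorm P : ℤ) := Nat.isCoprime_iff_coprime.mpr h6
      obtain ⟨a, b, hab⟩ := h7
      have h8 : (1 : 𝓞 K) ∈ P := by
        have h9 : ((a * r + b * Ideal.absNorm P : ℤ) : 𝓞 K) = 1 := by rw [hab]; simp
        rw [← h9]
        push_cast
        exact P.add_mem (P.mul_mem_left _ hrQ) (P.mul_mem_left _ h4)
      exact h1.ne_top ((Ideal.eq_top_iff_one P).mpr h8)
    have h10 : Ideal.absNorm P ≠ 0 := fun h => h2 (Ideal.absNorm_eq_zero_iff.mp h)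
    refine ⟨r, ?_, hr, Q, rfl, hrQ⟩
    rw [Finset.mem_range]
    exact lt_of_le_of_lt (Nat.le_of_dvd (Nat.pos_of_ne_zero h10) h5) h3
  let T : ℕ → Finset (Ideal (𝓞 K)) := fun r =>
    if h : r.Prime then ((an32_over K h).1.toFinset.image fun Q => Q.asIdeal) else ∅
  have hT : ∀ r, (T r).card ≤ Module.finrank ℚ K := by
    intro r
    by_cases h : r.Prime
    · have h1 : T r = (an32_over K h).1.toFinset.image fun Q => Q.asIdeal := dif_pos h
      rw [h1]
      refine Finset.card_image_le.trans ?_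
      rw [← Set.ncard_eq_toFinset_card _ (an32_over K h).1]
      exact (an32_over K h).2
    · have h1 : T r = ∅ := dif_neg h
      rw [h1]
      simp
  have hsub : S ⊆ (Finset.range X).biUnion T := by
    intro P hP
    obtain ⟨r, hr, hrp, Q, hQ, hrQ⟩ := h0 P hP
    refine Finset.mem_biUnion.mpr ⟨r, hr, ?_⟩
    have h1 : T r = (an32_over K hrp).1.toFinset.image fun Q => Q.asIdeal := dif_pos hrp
    rw [h1]
    refine Finset.mem_image.mpr ⟨Q, ?_, hQ⟩
    rw [Set.Finite.mem_toFinset]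
    exact hrQ
  refine (Finset.card_le_card hsub).trans ?_
  refine (Finset.card_biUnion_le_card_mul _ _ _ fun r _ => hT r).trans ?_
  rw [Finset.card_range]

theorem ideal_divisors (D : ℕ) (ε : ℝ) (hε : 0 < ε) : ∃ C : ℝ, 1 ≤ C ∧
    ∀ (K : Type) [Field K] [NumberField K], Module.finrank ℚ K ≤ D →
    ∀ I : Ideal (𝓞 K), I ≠ ⊥ →
    Set.Finite {J : Ideal (𝓞 K) | J ∣ I} ∧
    (Set.ncard {J : Ideal (𝓞 K) | J ∣ I} : ℝ) ≤ C * (Ideal.absNorm I : ℝ) ^ ε := by
  classical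
  obtain ⟨c0, hc0, hv⟩ := c34_vle ε hε
  set X : ℕ := ⌈(2 : ℝ) ^ (1 / ε)⌉₊ with hX
  have hX1 : (2 : ℝ) ^ (1 / ε) ≤ X := Nat.le_ceil _
  refine ⟨c0 ^ (X * D), one_le_pow₀ hc0, fun K _ _ hK I hI => ?_⟩
  set s := UniqueFactorizationMonoid.normalizedFactors I with hs
  have hmap : ∀ J ∈ {J : Ideal (𝓞 K) | J ∣ I},
      UniqueFactorizationMonoid.normalizedFactors J ∈ (Finset.Iic s : Set (Multiset (Ideal (𝓞 K)))) := by
    intro J hJ
    have hJ0 : J ≠ 0 := ne_zero_of_dvd_ne_zero hI hJ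
    rw [Finset.mem_coe, Finset.mem_Iic]
    exact (UniqueFactorizationMonoid.dvd_iff_normalizedFactors_le_normalizedFactors hJ0 hI).mp hJ
  have hinj : Set.InjOn (fun J : Ideal (𝓞 K) => UniqueFactorizationMonoid.normalizedFactors J)
      {J : Ideal (𝓞 K) | J ∣ I} := by
    intro J hJ J' hJ' h
    have hJ0 : J ≠ ⊥ := ne_zero_of_dvd_ne_zero hI hJ
    have hJ0' : J' ≠ ⊥ := ne_zero_of_dvd_ne_zero hI hJ'
    have h' : UniqueFactorizationMonoid.normalizedFactors J =
      UniqueFactorizationMonoid.normalizedFactors J' := h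
    rw [← Ideal.prod_normalizedFactors_eq_self hJ0, h', Ideal.prod_normalizedFactors_eq_self hJ0']
  refine ⟨Set.Finite.of_injOn hmap hinj (Finset.finite_toSet _), ?_⟩
  have h1 : Set.ncard {J : Ideal (𝓞 K) | J ∣ I} ≤ ∏ P ∈ s.toFinset, (s.count P + 1) := by
    refine (Set.ncard_le_ncard_of_injOn _ hmap hinj (Finset.finite_toSet _)).trans ?_
    rw [Set.ncard_coe_finset, Multiset.card_Iic]
  have h2 : (Ideal.absNorm I : ℝ) = ∏ P ∈ s.toFinset, (Ideal.absNorm P : ℝ) ^ s.count P := by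
    have h3 : Ideal.absNorm I = ∏ P ∈ s.toFinset, Ideal.absNorm P ^ s.count P := by
      conv_lhs => rw [← Ideal.prod_normalizedFactors_eq_self hI, ← hs, Finset.prod_multiset_count]
      rw [map_prod]
      simp only [map_pow]
    rw [h3]
    push_cast
    rfl
  have hprime : ∀ P ∈ s.toFinset, P.IsPrime ∧ P ≠ ⊥ := by
    intro P hP
    rw [Multiset.mem_toFinset] at hP
    have h3 := UniqueFactorizationMonoid.prime_of_normalized_factor P hP
    exact ⟨Ideal.isPrime_of_prime h3, h3.ne_zero⟩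
  have h4 : ∀ P ∈ s.toFinset, ((s.count P : ℝ) + 1) ≤
      (if Ideal.absNorm P < X then c0 else 1) * ((Ideal.absNorm P : ℝ) ^ s.count P) ^ ε := by
    intro P hP
    obtain ⟨hp1, hp2⟩ := hprime P hP
    have h5 : 2 ≤ Ideal.absNorm P := by
      have h6 : Ideal.absNorm P ≠ 0 := fun h => hp2 (Ideal.absNorm_eq_zero_iff.mp h)
      have h7 : Ideal.absNorm P ≠ 1 := fun h => hp1.ne_top (Ideal.absNorm_eq_one_iff.mp h)
      omega
    split_ifs with h
    · refine (hv _).trans (mul_le_mul_of_nonneg_left ?_ (by linarith))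
      refine Real.rpow_le_rpow (by positivity) ?_ hε.le
      exact pow_le_pow_left₀ (by norm_num) (by exact_mod_cast h5) _
    · rw [one_mul]
      refine c34_vle' ε hε (hX1.trans ?_) _
      exact_mod_cast Nat.le_of_not_lt h
  have h6 : (∏ P ∈ s.toFinset, (if Ideal.absNorm P < X then c0 else 1 : ℝ)) ≤ c0 ^ (X * D) := by
    rw [Finset.prod_ite, Finset.prod_const, Finset.prod_const_one, mul_one]
    refine pow_le_pow_right₀ hc0 ?_
    refine (c34_small K X _ fun P hP => ?_).trans (Nat.mul_le_mul_left _ hK)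
    rw [Finset.mem_filter] at hP
    exact ⟨(hprime P hP.1).1, (hprime P hP.1).2, hP.2⟩
  calc (Set.ncard {J : Ideal (𝓞 K) | J ∣ I} : ℝ)
      ≤ ((∏ P ∈ s.toFinset, (s.count P + 1) : ℕ) : ℝ) := by exact_mod_cast h1
    _ = ∏ P ∈ s.toFinset, ((s.count P : ℝ) + 1) := by push_cast; rfl
    _ ≤ ∏ P ∈ s.toFinset, ((if Ideal.absNorm P < X then c0 else 1) *
          ((Ideal.absNorm P : ℝ) ^ s.count P) ^ ε) :=
        Finset.prod_le_prod (fun P _ => by positivity) h4
    _ = (∏ P ∈ s.toFinset, (if Ideal.absNorm P < X then c0 else 1 : ℝ)) *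
          (Ideal.absNorm I : ℝ) ^ ε := by
        rw [Finset.prod_mul_distrib, h2, Real.finsetProd_rpow]
        intro P _
        positivity
    _ ≤ c0 ^ (X * D) * (Ideal.absNorm I : ℝ) ^ ε :=
        mul_le_mul_of_nonneg_right h6 (by positivity)

end Pool.Agent.H9.AM
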