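import Pool.Agent.H34.AM.Unit
import Pool.Agent.H34.AM.Div

/-!
# Project AN2 (MP_a3214d), block C: few elements of two sizes divide a given element
-/

set_option autoImplicit false

open Polynomial IsDedekindDomain NumberField

namespace Pool.Agent.H9.AM

open Pool.Agent.H35.AN

/-- the embeddings with small value -/
noncomputable def c34_pat {K : Type} [Field K] [NumberField K] (mu : ℝ) (a : K) :
    Finset (K →+* ℂ) := by
  classical
  exact Finset.univ.filter (fun φ => 1 ≤ mu * ‖φ a‖ ∧ ‖φ a‖ ≤ mu)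

theorem c34_fibre {D : ℕ} {mu : ℝ} (hmu : 1 ≤ mu) {N : ℕ} (K : Type) [Field K] [NumberField K]
    (hN : Set.Finite {u : 𝓞 K | ∀ φ : K →+* ℂ, ‖φ (u : K)‖ ≤ mu ^ 2} ∧
      Set.ncard {u : 𝓞 K | ∀ φ : K →+* ℂ, ‖φ (u : K)‖ ≤ mu ^ 2} ≤ N) {H : ℝ} (hH : 0 < H)
    (J : Ideal (𝓞 K)) (hJ : J ≠ ⊥) (π : Finset (K →+* ℂ)) :
    Set.Finite {a : 𝓞 K | Ideal.span {a} = J ∧ TwoScale mu H (a : K) ∧ c34_pat mu (a : K) = π} ∧
    Set.ncard {a : 𝓞 K | Ideal.span {a} = J ∧ TwoScale mu H (a : K) ∧ c34_pat mu (a : K) = π} ≤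
      N := by
  classical
  set S := {a : 𝓞 K | Ideal.span {a} = J ∧ TwoScale mu H (a : K) ∧ c34_pat mu (a : K) = π} with hS
  rcases S.eq_empty_or_nonempty with h | ⟨b, hb⟩
  · rw [h]
    exact ⟨Set.finite_empty, by simp⟩
  have hmu0 : 0 < mu := by linarith
  have hb0 : b ≠ 0 := by
    rintro rfl
    apply hJ
    rw [← hb.1]
    simp
  have hbk : (b : K) ≠ 0 := fun h => hb0 (RingOfIntegers.coe_eq_zero_iff.mp h)
  have hdiv : ∀ a ∈ S, ∃ c : 𝓞 K, a = b * c := by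
    intro a ha
    have hba : b ∣ a := by
      rw [← Ideal.span_singleton_le_span_singleton, ha.1, hb.1]
    exact hba
  choose! c hc using hdiv
  have hmaps : ∀ a ∈ S, c a ∈ {u : 𝓞 K | ∀ φ : K →+* ℂ, ‖φ (u : K)‖ ≤ mu ^ 2} := by
    intro a ha φ
    have h1 : (a : K) = (b : K) * (c a : K) := by
      conv_lhs => rw [hc a ha]
      push_cast
      rfl
    have hpos : 0 < ‖φ (b : K)‖ := by
      rw [norm_pos_iff]
      exact (map_ne_zero φ).mpr hbk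
    have h2 : ‖φ (a : K)‖ = ‖φ (b : K)‖ * ‖φ (c a : K)‖ := by
      rw [h1, map_mul, norm_mul]
    have hπ : φ ∈ c34_pat mu (a : K) ↔ φ ∈ c34_pat mu (b : K) := by
      rw [ha.2.2, hb.2.2]
    have h3 : ∀ x : K, φ ∈ c34_pat mu x ↔ (1 ≤ mu * ‖φ x‖ ∧ ‖φ x‖ ≤ mu) := by
      intro x
      unfold c34_pat
      simp
    rw [h3, h3] at hπ
    have key : ∀ s : ℝ, 0 < s → ‖φ (a : K)‖ ≤ mu * s → s ≤ mu * ‖φ (b : K)‖ →
        ‖φ (c a : K)‖ ≤ mu ^ 2 := by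
      intro s hs h4 h5
      rw [h2] at h4
      have h6 : ‖φ (b : K)‖ * ‖φ (c a : K)‖ ≤ ‖φ (b : K)‖ * mu ^ 2 := by
        calc ‖φ (b : K)‖ * ‖φ (c a : K)‖ ≤ mu * s := h4
          _ ≤ mu * (mu * ‖φ (b : K)‖) := mul_le_mul_of_nonneg_left h5 hmu0.le
          _ = ‖φ (b : K)‖ * mu ^ 2 := by ring
      exact le_of_mul_le_mul_left h6 hpos
    by_cases h7 : 1 ≤ mu * ‖φ (a : K)‖ ∧ ‖φ (a : K)‖ ≤ mu
    · have h8 := hπ.mp h7
      exact key 1 one_pos (by rw [mul_one]; exact h7.2) h8.1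
    · have h8 : ¬ (1 ≤ mu * ‖φ (b : K)‖ ∧ ‖φ (b : K)‖ ≤ mu) := fun h => h7 (hπ.mpr h)
      have h9 := (ha.2.1 φ).resolve_left h7
      have h10 := (hb.2.1 φ).resolve_left h8
      exact key H hH h9.2 h10.1
  have hinj : Set.InjOn c S := by
    intro a ha a' ha' h
    rw [hc a ha, hc a' ha', h]
  exact ⟨Set.Finite.of_injOn hmaps hinj hN.1,
    (Set.ncard_le_ncard_of_injOn _ hmaps hinj hN.1).trans hN.2⟩

theorem twoscale_count (D : ℕ) (mu : ℝ) (hmu : 1 ≤ mu) (ε : ℝ) (hε : 0 < ε) : ∃ C : ℝ, 1 ≤ C ∧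
    ∀ (K : Type) [Field K] [NumberField K], Module.finrank ℚ K ≤ D → ∀ b : 𝓞 K, b ≠ 0 →
    ∀ H : ℝ, 0 < H →
    Set.Finite {a : 𝓞 K | a ∣ b ∧ TwoScale mu H (a : K)} ∧
    (Set.ncard {a : 𝓞 K | a ∣ b ∧ TwoScale mu H (a : K)} : ℝ) ≤
      C * (Ideal.absNorm (Ideal.span {b}) : ℝ) ^ ε := by
  classical
  obtain ⟨N, hN⟩ := unit_count D (mu ^ 2)
  obtain ⟨C, hC, hdiv⟩ := ideal_divisors D ε hε
  refine ⟨C * 2 ^ D * (N + 1), ?_, fun K _ _ hK b hb H hH => ?_⟩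
  · have h1 : (1 : ℝ) ≤ 2 ^ D := one_le_pow₀ (by norm_num)
    have h2 : (1 : ℝ) ≤ (N : ℝ) + 1 := by
      have := (Nat.cast_nonneg N : (0 : ℝ) ≤ N)
      linarith
    have h3 := one_le_mul_of_one_le_of_one_le hC h1
    exact one_le_mul_of_one_le_of_one_le h3 h2
  have hI : Ideal.span {b} ≠ ⊥ := by
    rw [Ne, Ideal.span_singleton_eq_bot]
    exact hb
  obtain ⟨hf, hn⟩ := hdiv K hK _ hI
  have hfib := fun (J : Ideal (𝓞 K)) (hJ : J ≠ ⊥) (π : Finset (K →+* ℂ)) =>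
    c34_fibre (D := D) hmu K (hN K hK) hH J hJ π
  let F : Ideal (𝓞 K) × Finset (K →+* ℂ) → Finset (𝓞 K) := fun t =>
    if h : t.1 ≠ ⊥ then (hfib t.1 h t.2).1.toFinset else ∅
  have hF : ∀ t, (F t).card ≤ N := by
    intro t
    by_cases h : t.1 ≠ ⊥
    · have h1 : F t = (hfib t.1 h t.2).1.toFinset := dif_pos h
      rw [h1, ← Set.ncard_eq_toFinset_card _ (hfib t.1 h t.2).1]
      exact (hfib t.1 h t.2).2
    · have h1 : F t = ∅ := dif_neg h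
      rw [h1]
      simp
  let R : Finset (𝓞 K) := (hf.toFinset ×ˢ (Finset.univ : Finset (Finset (K →+* ℂ)))).biUnion F
  have hsub : {a : 𝓞 K | a ∣ b ∧ TwoScale mu H (a : K)} ⊆ (R : Set (𝓞 K)) := by
    rintro a ⟨h1, h2⟩
    have ha0 : a ≠ 0 := ne_zero_of_dvd_ne_zero hb h1
    have h3 : (Ideal.span {a} : Ideal (𝓞 K)) ≠ ⊥ := by
      rw [Ne, Ideal.span_singleton_eq_bot]
      exact ha0
    rw [Finset.mem_coe]
    refine Finset.mem_biUnion.mpr ⟨(Ideal.span {a}, c34_pat mu (a : K)), ?_, ?_⟩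
    · rw [Finset.mem_product, Set.Finite.mem_toFinset]
      refine ⟨?_, Finset.mem_univ _⟩
      show Ideal.span {a} ∣ Ideal.span {b}
      rw [Ideal.dvd_iff_le, Ideal.span_singleton_le_span_singleton]
      exact h1
    · have h4 : F (Ideal.span {a}, c34_pat mu (a : K)) =
          (hfib (Ideal.span {a}) h3 (c34_pat mu (a : K))).1.toFinset := dif_pos h3
      rw [h4, Set.Finite.mem_toFinset]
      exact ⟨rfl, h2, rfl⟩
  refine ⟨(Finset.finite_toSet R).subset hsub, ?_⟩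
  have h5 : Set.ncard {a : 𝓞 K | a ∣ b ∧ TwoScale mu H (a : K)} ≤ R.card := by
    rw [← Set.ncard_coe_finset]
    exact Set.ncard_le_ncard hsub (Finset.finite_toSet R)
  have h6 : R.card ≤ hf.toFinset.card * 2 ^ D * N := by
    refine (Finset.card_biUnion_le_card_mul _ _ N fun t _ => hF t).trans ?_
    refine Nat.mul_le_mul_right _ ?_
    rw [Finset.card_product]
    refine Nat.mul_le_mul_left _ ?_
    rw [Finset.card_univ, Fintype.card_finset]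
    refine Nat.pow_le_pow_right (by norm_num) ?_
    rw [NumberField.Embeddings.card K ℂ]
    exact hK
  rw [← Set.ncard_eq_toFinset_card _ hf] at h6
  have h7 : (Set.ncard {a : 𝓞 K | a ∣ b ∧ TwoScale mu H (a : K)} : ℝ) ≤
      (Set.ncard {J : Ideal (𝓞 K) | J ∣ Ideal.span {b}} : ℝ) * 2 ^ D * N := by
    exact_mod_cast h5.trans h6
  refine h7.trans ?_
  have h8 : (0 : ℝ) ≤ (Ideal.absNorm (Ideal.span {b}) : ℝ) ^ ε := by positivity
  calc (Set.ncard {J : Ideal (𝓞 K) | J ∣ Ideal.span {b}} : ℝ) * 2 ^ D * N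
      ≤ (C * (Ideal.absNorm (Ideal.span {b}) : ℝ) ^ ε) * 2 ^ D * (N + 1) := by
        have h9 : (N : ℝ) ≤ (N : ℝ) + 1 := by linarith
        gcongr
    _ = C * 2 ^ D * (N + 1) * (Ideal.absNorm (Ideal.span {b}) : ℝ) ^ ε := by ring

end Pool.Agent.H9.AM
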