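import Pool.Agent.H9.AM.Defs

/-!
# Project AN2 (MP_a3214d), block C: uniform bound for the number of algebraic integers with bounded
conjugates
-/

set_option autoImplicit false

open Polynomial IsDedekindDomain NumberField

namespace Pool.Agent.H9.AM

open Pool.Agent.H35.AN

/-- the polynomial with the coefficients `f` -/
noncomputable def c34_poly {D : ℕ} (f : Fin (D + 1) → ℤ) : ℤ[X] := ∑ i, C (f i) * X ^ (i : ℕ)

theorem c34_natDegree {D : ℕ} (f : Fin (D + 1) → ℤ) : (c34_poly f).natDegree ≤ D := by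
  refine natDegree_sum_le_of_forall_le _ _ fun i _ => ?_
  refine (natDegree_C_mul_X_pow_le _ _).trans ?_
  have := i.2
  omega

theorem c34_eq {D : ℕ} (p : ℤ[X]) (hp : p.natDegree ≤ D) :
    c34_poly (D := D) (fun i => p.coeff i) = p := by
  unfold c34_poly
  rw [Fin.sum_univ_eq_sum_range (fun i => C (p.coeff i) * X ^ i) (D + 1)]
  exact (p.as_sum_range_C_mul_X_pow' (Nat.lt_succ_of_le hp)).symm

theorem unit_count (D : ℕ) (lam : ℝ) : ∃ N : ℕ, ∀ (K : Type) [Field K] [NumberField K],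
    Module.finrank ℚ K ≤ D →
    Set.Finite {u : 𝓞 K | ∀ φ : K →+* ℂ, ‖φ (u : K)‖ ≤ lam} ∧
    Set.ncard {u : 𝓞 K | ∀ φ : K →+* ℂ, ‖φ (u : K)‖ ≤ lam} ≤ N := by
  classical
  set B : ℤ := ⌈max lam 1 ^ D * 2 ^ D⌉ with hB
  let S : Finset (Fin (D + 1) → ℤ) := Fintype.piFinset (fun _ => Finset.Icc (-B) B)
  refine ⟨S.card * D, fun K _ _ hK => ?_⟩
  let R : Finset K := S.biUnion (fun f => ((c34_poly f).map (Int.castRingHom K)).roots.toFinset)
  have hR : R.card ≤ S.card * D := by
    refine Finset.card_biUnion_le_card_mul _ _ _ fun f _ => ?_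
    refine (Multiset.toFinset_card_le _).trans ?_
    refine (Polynomial.card_roots' _).trans ?_
    exact natDegree_map_le.trans (c34_natDegree f)
  have hsub : ∀ u ∈ {u : 𝓞 K | ∀ φ : K →+* ℂ, ‖φ (u : K)‖ ≤ lam}, (u : K) ∈ (R : Set K) := by
    intro u hu
    have hint : IsIntegral ℤ (u : K) := u.isIntegral_coe
    have hmin : minpoly ℚ (u : K) = (minpoly ℤ (u : K)).map (algebraMap ℤ ℚ) :=
      minpoly.isIntegrallyClosed_eq_field_fractions' ℚ hint
    have hdeg : (minpoly ℤ (u : K)).natDegree ≤ D := by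
      have h1 : (minpoly ℚ (u : K)).natDegree ≤ Module.finrank ℚ K := minpoly.natDegree_le _
      rw [hmin, natDegree_map_eq_of_injective (algebraMap ℤ ℚ).injective_int] at h1
      exact h1.trans hK
    have hcoef : ∀ i, |(minpoly ℤ (u : K)).coeff i| ≤ B := by
      intro i
      have h1 := NumberField.Embeddings.coeff_bdd_of_norm_le (B := lam) (x := (u : K)) hu i
      rw [hmin, coeff_map] at h1
      have h2 : ‖(algebraMap ℤ ℚ) ((minpoly ℤ (u : K)).coeff i)‖ =
          ((|(minpoly ℤ (u : K)).coeff i| : ℤ) : ℝ) := by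
        simp [Int.norm_eq_abs]
      rw [h2] at h1
      have h3 : max lam 1 ^ Module.finrank ℚ K *
          (Module.finrank ℚ K).choose (Module.finrank ℚ K / 2) ≤ max lam 1 ^ D * 2 ^ D := by
        refine mul_le_mul (pow_le_pow_right₀ (le_max_right _ _) hK) ?_ (by positivity)
          (by positivity)
        have h4 : (Module.finrank ℚ K).choose (Module.finrank ℚ K / 2) ≤ 2 ^ D :=
          (Nat.choose_le_two_pow _ _).trans (Nat.pow_le_pow_right (by norm_num) hK)
        exact_mod_cast h4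
      have h5 : ((|(minpoly ℤ (u : K)).coeff i| : ℤ) : ℝ) ≤ max lam 1 ^ D * 2 ^ D := h1.trans h3
      have h6 := h5.trans (Int.le_ceil _)
      exact (Int.cast_le (R := ℝ)).mp h6
    rw [Finset.mem_coe]
    refine Finset.mem_biUnion.mpr ⟨fun i => (minpoly ℤ (u : K)).coeff i, ?_, ?_⟩
    · refine Fintype.mem_piFinset.mpr fun i => ?_
      rw [Finset.mem_Icc]
      exact abs_le.mp (hcoef i)
    · rw [c34_eq _ hdeg, Multiset.mem_toFinset, mem_roots']
      refine ⟨?_, ?_⟩
      · exact ((minpoly.monic hint).map _).ne_zero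
      · rw [IsRoot.def, eval_map]
        have := minpoly.aeval ℤ (u : K)
        rwa [aeval_def] at this
  have hinj : Set.InjOn (fun u : 𝓞 K => (u : K)) {u : 𝓞 K | ∀ φ : K →+* ℂ, ‖φ (u : K)‖ ≤ lam} :=
    fun a _ b _ h => RingOfIntegers.ext h
  refine ⟨Set.Finite.of_injOn hsub hinj (Finset.finite_toSet R), ?_⟩
  refine (Set.ncard_le_ncard_of_injOn _ hsub hinj (Finset.finite_toSet R)).trans ?_
  rw [Set.ncard_coe_finset]
  exact hR

end Pool.Agent.H9.AM
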